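import Mathlib

/-!
# Bounded Hankel operators on `ℓ^p` without a multiplier symbol (`p ≠ 2`)
-/

set_option autoImplicit false

open MeasureTheory AddCircle Finset

namespace Pool.Agent.Results.MP_03b314_an.NehariFails

/-! ### The forms -/

/-- The kernel `b` defines a bilinear form of norm at most `M` on `ℓ^p × ℓ^q` restricted to
sequences supported in `[0, W)`. -/
def Bdd (p q : ℝ) (b : ℤ → ℂ) (W : ℕ) (M : ℝ) : Prop :=
  ∀ X Y : ℕ → ℂ, ‖∑ i ∈ range W, ∑ j ∈ range W, X i * Y j * b ((j : ℤ) - i)‖ ≤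
    M * (∑ i ∈ range W, ‖X i‖ ^ p) ^ (1 / p) * (∑ j ∈ range W, ‖Y j‖ ^ q) ^ (1 / q)

/-- doubled sequence -/
def dbl (N : ℕ) (a0 a1 : ℝ) (X : ℕ → ℂ) (i : ℕ) : ℂ :=
  if i < N then a0 * X i else a1 * X (i - N)

lemma sum_dbl_norm (N : ℕ) (a0 a1 : ℝ) (X : ℕ → ℂ) (p : ℝ) :
    ∑ i ∈ range (2 * N), ‖dbl N a0 a1 X i‖ ^ p =
      (|a0| ^ p + |a1| ^ p) * ∑ i ∈ range N, ‖X i‖ ^ p := by
  rw [two_mul, Finset.sum_range_add, add_mul, Finset.mul_sum, Finset.mul_sum]
  congr 1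
  · apply Finset.sum_congr rfl
    intro i hi
    rw [dbl, if_pos (Finset.mem_range.1 hi), norm_mul, Complex.norm_real, Real.norm_eq_abs,
      Real.mul_rpow (abs_nonneg _) (norm_nonneg _)]
  · apply Finset.sum_congr rfl
    intro i _
    rw [dbl, if_neg (by omega), Nat.add_sub_cancel_left, norm_mul, Complex.norm_real,
      Real.norm_eq_abs, Real.mul_rpow (abs_nonneg _) (norm_nonneg _)]

lemma sum_dbl (N : ℕ) (a0 a1 b0 b1 : ℝ) (X Y : ℕ → ℂ) (b : ℤ → ℂ) :
    ∑ i ∈ range (2 * N), ∑ j ∈ range (2 * N), dbl N a0 a1 X i * dbl N b0 b1 Y j * b ((j : ℤ) - i) =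
      (a0 * b0 + a1 * b1) * ∑ i ∈ range N, ∑ j ∈ range N, X i * Y j * b ((j : ℤ) - i) +
      a0 * b1 * ∑ i ∈ range N, ∑ j ∈ range N, X i * Y j * b ((j : ℤ) - i + N) +
      a1 * b0 * ∑ i ∈ range N, ∑ j ∈ range N, X i * Y j * b ((j : ℤ) - i - N) := by
  rw [two_mul, Finset.sum_range_add]
  simp only [Finset.sum_range_add, Finset.mul_sum]
  rw [← Finset.sum_add_distrib, ← Finset.sum_add_distrib, ← Finset.sum_add_distrib]
  apply Finset.sum_congr rfl
  intro i hi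
  rw [← Finset.sum_add_distrib, ← Finset.sum_add_distrib, ← Finset.sum_add_distrib,
    ← Finset.sum_add_distrib, ← Finset.sum_add_distrib]
  apply Finset.sum_congr rfl
  intro j hj
  have hi' := Finset.mem_range.1 hi
  have hj' := Finset.mem_range.1 hj
  have d1 : dbl N a0 a1 X i = a0 * X i := by rw [dbl, if_pos hi']
  have d2 : dbl N a0 a1 X (N + i) = a1 * X i := by
    rw [dbl, if_neg (by omega), Nat.add_sub_cancel_left]
  have d3 : dbl N b0 b1 Y j = b0 * Y j := by rw [dbl, if_pos hj']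
  have d4 : dbl N b0 b1 Y (N + j) = b1 * Y j := by
    rw [dbl, if_neg (by omega), Nat.add_sub_cancel_left]
  rw [d1, d2, d3, d4]
  have e1 : (((N + j : ℕ) : ℤ) - (i : ℤ)) = (j : ℤ) - i + N := by push_cast; ring
  have e2 : ((j : ℤ) - ((N + i : ℕ) : ℤ)) = (j : ℤ) - i - N := by push_cast; ring
  have e3 : (((N + j : ℕ) : ℤ) - ((N + i : ℕ) : ℤ)) = (j : ℤ) - i := by push_cast; ring
  rw [e1, e2, e3]
  ring

lemma Bdd.dbl_le {p q : ℝ} {b : ℤ → ℂ} {N : ℕ} {M : ℝ} (h : Bdd p q b (2 * N) M) {a0 a1 b0 b1 : ℝ} (ha : |a0| ^ p + |a1| ^ p = 1) (hb : |b0| ^ q + |b1| ^ q = 1)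
    (X Y : ℕ → ℂ) :
    ‖(a0 * b0 + a1 * b1) * ∑ i ∈ range N, ∑ j ∈ range N, X i * Y j * b ((j : ℤ) - i) +
      a0 * b1 * ∑ i ∈ range N, ∑ j ∈ range N, X i * Y j * b ((j : ℤ) - i + N) +
      a1 * b0 * ∑ i ∈ range N, ∑ j ∈ range N, X i * Y j * b ((j : ℤ) - i - N)‖ ≤
    M * (∑ i ∈ range N, ‖X i‖ ^ p) ^ (1 / p) * (∑ j ∈ range N, ‖Y j‖ ^ q) ^ (1 / q) := by
  have h1 := h (dbl N a0 a1 X) (dbl N b0 b1 Y)
  rw [sum_dbl, sum_dbl_norm, sum_dbl_norm, ha, hb, one_mul, one_mul] at h1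
  exact h1

/-- The number `κ`. -/
noncomputable def lam (p : ℝ) : ℝ := (1 + 2 * 2 ^ (1 / p) / 3)⁻¹

noncomputable def kap (p q : ℝ) : ℝ := lam p * ((2 : ℝ) ^ (1 / p) - 2 ^ (1 / q)) / 3

lemma rp {x : ℝ} (hx : 0 < x) {p : ℝ} (hp : 0 < p) : |x ^ (1 / p)| ^ p = x := by
  rw [abs_of_pos (Real.rpow_pos_of_pos hx _), ← Real.rpow_mul hx.le, one_div,
    inv_mul_cancel₀ hp.ne', Real.rpow_one]

lemma Bdd.step {p q : ℝ} (hpq : p.HolderConjugate q) {b : ℤ → ℂ} {N : ℕ} {M : ℝ}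
    (h : Bdd p q b (2 * N) M) : Bdd p q (fun l => b l + kap p q * b (l + N)) N M := by
  intro X Y
  have hp : 0 < p := hpq.pos
  have hq : 0 < q := hpq.symm.pos
  have hone : 1 / p + 1 / q = 1 := by
    have := hpq.inv_add_inv_eq_one
    rw [one_div, one_div]; exact this
  set R := M * (∑ i ∈ range N, ‖X i‖ ^ p) ^ (1 / p) * (∑ j ∈ range N, ‖Y j‖ ^ q) ^ (1 / q) with hR
  set S0 := ∑ i ∈ range N, ∑ j ∈ range N, X i * Y j * b ((j : ℤ) - i) with hS0
  set Sp := ∑ i ∈ range N, ∑ j ∈ range N, X i * Y j * b ((j : ℤ) - i + N) with hSp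
  set Sm := ∑ i ∈ range N, ∑ j ∈ range N, X i * Y j * b ((j : ℤ) - i - N) with hSm
  -- first choice
  have t1 := h.dbl_le (a0 := (1 / 2 : ℝ) ^ (1 / p)) (a1 := (1 / 2 : ℝ) ^ (1 / p))
    (b0 := (1 / 2 : ℝ) ^ (1 / q)) (b1 := (1 / 2 : ℝ) ^ (1 / q))
    (by rw [rp (by norm_num) hp]; norm_num) (by rw [rp (by norm_num) hq]; norm_num) X Y
  have t2 := h.dbl_le (a0 := (1 / 3 : ℝ) ^ (1 / p)) (a1 := -(2 / 3 : ℝ) ^ (1 / p))
    (b0 := (1 / 3 : ℝ) ^ (1 / q)) (b1 := -(2 / 3 : ℝ) ^ (1 / q))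
    (by rw [abs_neg, rp (by norm_num) hp, rp (by norm_num) hp]; norm_num)
    (by rw [abs_neg, rp (by norm_num) hq, rp (by norm_num) hq]; norm_num) X Y
  rw [← hS0, ← hSp, ← hSm, ← hR] at t1 t2
  have m1 : (1 / 2 : ℝ) ^ (1 / p) * (1 / 2 : ℝ) ^ (1 / q) = 1 / 2 := by
    rw [← Real.rpow_add (by norm_num), hone, Real.rpow_one]
  have m2 : (1 / 3 : ℝ) ^ (1 / p) * (1 / 3 : ℝ) ^ (1 / q) = 1 / 3 := by
    rw [← Real.rpow_add (by norm_num), hone, Real.rpow_one]
  have m3 : (2 / 3 : ℝ) ^ (1 / p) * (2 / 3 : ℝ) ^ (1 / q) = 2 / 3 := by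
    rw [← Real.rpow_add (by norm_num), hone, Real.rpow_one]
  have m4 : (1 / 3 : ℝ) ^ (1 / p) * (2 / 3 : ℝ) ^ (1 / q) = 2 ^ (1 / q) / 3 := by
    have : (2 / 3 : ℝ) = 2 * (1 / 3) := by norm_num
    rw [this, Real.mul_rpow (by norm_num) (by norm_num)]
    rw [mul_comm ((2 : ℝ) ^ (1 / q)), ← mul_assoc, m2]; ring
  have m5 : (2 / 3 : ℝ) ^ (1 / p) * (1 / 3 : ℝ) ^ (1 / q) = 2 ^ (1 / p) / 3 := by
    have : (2 / 3 : ℝ) = 2 * (1 / 3) := by norm_num
    rw [this, Real.mul_rpow (by norm_num) (by norm_num), mul_assoc, m2]; ring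
  have r1 : (((1 / 2 : ℝ) ^ (1 / p) : ℝ) : ℂ) * (((1 / 2 : ℝ) ^ (1 / q) : ℝ) : ℂ) = 1 / 2 := by
    rw [← Complex.ofReal_mul, m1]; norm_num
  have r2 : (((1 / 3 : ℝ) ^ (1 / p) : ℝ) : ℂ) * (((1 / 3 : ℝ) ^ (1 / q) : ℝ) : ℂ) +
      ((-(2 / 3 : ℝ) ^ (1 / p) : ℝ) : ℂ) * ((-(2 / 3 : ℝ) ^ (1 / q) : ℝ) : ℂ) = 1 := by
    rw [← Complex.ofReal_mul, ← Complex.ofReal_mul, neg_mul_neg, m2, m3]; norm_num
  have r3 : (((1 / 3 : ℝ) ^ (1 / p) : ℝ) : ℂ) * ((-(2 / 3 : ℝ) ^ (1 / q) : ℝ) : ℂ) =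
      ((-(2 ^ (1 / q) / 3) : ℝ) : ℂ) := by
    rw [← Complex.ofReal_mul, mul_neg, m4]
  have r4 : ((-(2 / 3 : ℝ) ^ (1 / p) : ℝ) : ℂ) * (((1 / 3 : ℝ) ^ (1 / q) : ℝ) : ℂ) =
      ((-(2 ^ (1 / p) / 3) : ℝ) : ℂ) := by
    rw [← Complex.ofReal_mul, neg_mul, m5]
  rw [r1] at t1
  rw [r2, r3, r4] at t2
  -- combination
  have hlpos : 0 < 1 + 2 * (2 : ℝ) ^ (1 / p) / 3 := by positivity
  have hl1 : 0 < lam p := inv_pos.2 hlpos
  have hl2 : lam p ≤ 1 := by
    rw [lam]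
    apply inv_le_one_of_one_le₀
    have : 0 < (2 : ℝ) ^ (1 / p) := by positivity
    linarith
  have hl3 : lam p * (1 + 2 * (2 : ℝ) ^ (1 / p) / 3) = 1 := inv_mul_cancel₀ hlpos.ne'
  have hgoal : ∑ i ∈ range N, ∑ j ∈ range N, X i * Y j *
      (b ((j : ℤ) - i) + kap p q * b ((j : ℤ) - i + N)) = S0 + kap p q * Sp := by
    rw [hS0, hSp, Finset.mul_sum, ← Finset.sum_add_distrib]
    apply Finset.sum_congr rfl
    intro i _
    rw [Finset.mul_sum, ← Finset.sum_add_distrib]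
    apply Finset.sum_congr rfl
    intro j _
    ring
  have hcomb : S0 + kap p q * Sp =
      ((1 - lam p : ℝ) : ℂ) * ((1 / 2 + 1 / 2) * S0 + 1 / 2 * Sp + 1 / 2 * Sm) +
      ((lam p : ℝ) : ℂ) * (1 * S0 + ((-(2 ^ (1 / q) / 3) : ℝ) : ℂ) * Sp +
        ((-(2 ^ (1 / p) / 3) : ℝ) : ℂ) * Sm) := by
    have c1 : (1 - lam p) / 2 - lam p * (2 ^ (1 / p) / 3) = 0 := by linarith
    have c2 : (1 - lam p) / 2 - lam p * (2 ^ (1 / q) / 3) = kap p q := by
      rw [kap]; linarith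
    have c1' : ((1 - lam p : ℝ) : ℂ) * (1 / 2) + (lam p : ℂ) * ((-(2 ^ (1 / p) / 3) : ℝ) : ℂ) = 0 := by
      have : ((1 - lam p : ℝ) : ℂ) * (1 / 2) + (lam p : ℂ) * ((-(2 ^ (1 / p) / 3) : ℝ) : ℂ) =
          (((1 - lam p) / 2 - lam p * (2 ^ (1 / p) / 3) : ℝ) : ℂ) := by
        push_cast; ring
      rw [this, c1]; simp
    have c2' : ((1 - lam p : ℝ) : ℂ) * (1 / 2) + (lam p : ℂ) * ((-(2 ^ (1 / q) / 3) : ℝ) : ℂ) =
        (kap p q : ℂ) := by
      rw [← c2]; push_cast; ring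
    rw [← c2']
    have : ((1 - lam p : ℝ) : ℂ) = 1 - (lam p : ℂ) := by push_cast; ring
    linear_combination (-Sm) * c1' - S0 * this
  rw [hgoal, hcomb]
  calc _ ≤ (1 - lam p) * R + lam p * R := by
        refine (norm_add_le _ _).trans ?_
        rw [norm_mul, norm_mul, Complex.norm_real, Complex.norm_real, Real.norm_eq_abs,
          Real.norm_eq_abs, abs_of_nonneg (by linarith), abs_of_pos hl1]
        gcongr
    _ = R := by ring


/-- The iterated functional. -/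
noncomputable def G (κ : ℝ) : ℕ → (ℤ → ℂ) → ℂ
  | 0, b => b 0
  | n + 1, b => G κ n (fun l => b l + κ * b (l + (2 : ℤ) ^ n))

lemma norm_G_le {p q : ℝ} (hpq : p.HolderConjugate q) (n : ℕ) : ∀ (b : ℤ → ℂ) (M : ℝ),
    Bdd p q b (2 ^ n) M → ‖G (kap p q) n b‖ ≤ M := by
  induction n with
  | zero =>
    intro b M h
    have h1 := h (fun _ => 1) (fun _ => 1)
    simpa [G] using h1
  | succ n ih =>
    intro b M h
    rw [pow_succ, mul_comm] at h
    have h2 := h.step hpq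
    have := ih _ M h2
    rw [G]
    push_cast at this
    exact this

lemma G_lin (κ : ℝ) (n : ℕ) : ∀ (b b' : ℤ → ℂ) (c : ℂ),
    G κ n (fun l => b l + c * b' l) = G κ n b + c * G κ n b' := by
  induction n with
  | zero => intro b b' c; rfl
  | succ n ih =>
    intro b b' c
    rw [G, G, G, ← ih]
    congr 1
    funext l
    ring

lemma G_vanish (κ : ℝ) (n : ℕ) : ∀ b : ℤ → ℂ, (∀ l : ℤ, 0 < l → l < 2 ^ n → b l = 0) →
    G κ n b = b 0 := by
  induction n with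
  | zero => intro b _; rfl
  | succ n ih =>
    intro b hb
    have hpos : (0 : ℤ) < 2 ^ n := by positivity
    rw [G, ih]
    · rw [zero_add, hb (2 ^ n) hpos (by rw [pow_succ]; omega)]
      ring
    · intro l hl hl'
      rw [hb l hl (by rw [pow_succ]; omega), hb (l + 2 ^ n) (by omega) (by rw [pow_succ]; omega)]
      ring

lemma G_eval (κ : ℝ) (b : ℤ → ℂ) (hb : ∀ l : ℤ, 0 < l → (∀ k : ℕ, l ≠ 2 ^ k) → b l = 0) (n : ℕ) :
    G κ n b = b 0 + κ * ∑ k ∈ range n, b (2 ^ k) := by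
  induction n with
  | zero => simp [G]
  | succ n ih =>
    have hpos : (0 : ℤ) < 2 ^ n := by positivity
    have h1 : G κ (n + 1) b = G κ n b + κ * G κ n (fun l => b (l + 2 ^ n)) := by
      rw [G]; exact G_lin κ n b _ κ
    have h2 : G κ n (fun l => b (l + 2 ^ n)) = b (2 ^ n) := by
      rw [G_vanish κ n, zero_add]
      intro l hl hl'
      apply hb _ (by omega)
      intro k hk
      have a1 : (2 : ℤ) ^ n < 2 ^ k := by omega
      have a2 : (2 : ℤ) ^ k < 2 ^ (n + 1) := by rw [pow_succ]; omega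
      have b1 : n < k := (pow_lt_pow_iff_right₀ (by norm_num : (1 : ℤ) < 2)).1 a1
      have b2 : k < n + 1 := (pow_lt_pow_iff_right₀ (by norm_num : (1 : ℤ) < 2)).1 a2
      omega
    rw [h1, h2, ih, Finset.sum_range_succ]
    ring

/-! ### The coefficients -/

/-- The coefficients of `f`: `1 / (k + 1)` at `2 ^ (k + 1)`, zero elsewhere. -/
noncomputable def a : ℤ → ℝ :=
  Function.extend (fun k : ℕ => (2 : ℤ) ^ (k + 1)) (fun k : ℕ => 1 / ((k : ℝ) + 1)) 0

lemma pow_inj : Function.Injective (fun k : ℕ => (2 : ℤ) ^ (k + 1)) := by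
  intro i j h
  have h2 : (2 : ℤ) ^ (i + 1) = 2 ^ (j + 1) := h
  have := (pow_right_injective₀ (a := (2 : ℤ)) (by norm_num) (by norm_num)) h2
  omega

lemma a_pow (k : ℕ) : a (2 ^ (k + 1)) = 1 / ((k : ℝ) + 1) := pow_inj.extend_apply _ _ k

lemma a_eq_zero {n : ℤ} (h : ∀ k : ℕ, n ≠ 2 ^ (k + 1)) : a n = 0 := by
  rw [a, Function.extend_apply']
  · rfl
  · rintro ⟨k, hk⟩; exact h k hk.symm

lemma exists_of_a_ne {n : ℤ} (h : a n ≠ 0) : ∃ k : ℕ, n = 2 ^ (k + 1) := by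
  by_contra hcon
  push Not at hcon
  exact h (a_eq_zero hcon)

lemma a_nonneg (n : ℤ) : 0 ≤ a n := by
  by_cases h : a n = 0
  · rw [h]
  · obtain ⟨k, rfl⟩ := exists_of_a_ne h
    rw [a_pow]; positivity

lemma summable_a {s : ℝ} (hs : 1 < s) : Summable (fun n => a n ^ s) := by
  have h1 : Summable ((fun n : ℤ => a n ^ s) ∘ (fun k : ℕ => (2 : ℤ) ^ (k + 1))) := by
    have : ((fun n : ℤ => a n ^ s) ∘ (fun k : ℕ => (2 : ℤ) ^ (k + 1))) =
        fun k : ℕ => 1 / ((k + 1 : ℕ) : ℝ) ^ s := by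
      funext k
      simp only [Function.comp]
      rw [a_pow, Real.div_rpow (by norm_num) (by positivity), Real.one_rpow]
      push_cast
      rfl
    rw [this]
    exact (summable_nat_add_iff 1).2 (Real.summable_one_div_nat_rpow.2 hs)
  apply (pow_inj.summable_iff _).1 h1
  intro n hn
  have : a n = 0 := by
    apply a_eq_zero
    intro k hk
    exact hn ⟨k, hk.symm⟩
  rw [this, Real.zero_rpow (by linarith)]

lemma sum_a_le {s : ℝ} (hs : 1 < s) (S : Finset ℤ) (φ : ℤ → ℤ) (hφ : Function.Injective φ) :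
    ∑ n ∈ S, a (φ n) ^ s ≤ ∑' n, a n ^ s := by
  classical
  have h1 : ∑ n ∈ S, a (φ n) ^ s = ∑ m ∈ S.image φ, a m ^ s := by
    rw [Finset.sum_image]
    intro x _ y _ h; exact hφ h
  rw [h1]
  exact (summable_a hs).sum_le_tsum _ (fun n _ => Real.rpow_nonneg (a_nonneg n) _)

lemma pow_unique {x y : ℕ} {N : ℤ} (h1 : N ≤ 2 ^ x) (h2 : (2 : ℤ) ^ x < 2 * N) (h3 : N ≤ 2 ^ y)
    (h4 : (2 : ℤ) ^ y < 2 * N) : x = y := by
  rcases lt_trichotomy x y with h | h | h
  · exfalso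
    have : (2 : ℤ) ^ (x + 1) ≤ 2 ^ y := pow_le_pow_right₀ (by norm_num) h
    rw [pow_succ] at this
    omega
  · exact h
  · exfalso
    have : (2 : ℤ) ^ (y + 1) ≤ 2 ^ x := pow_le_pow_right₀ (by norm_num) h
    rw [pow_succ] at this
    omega

lemma pow_unique' {x y : ℕ} {N : ℤ} (h1 : N < 2 ^ x) (h2 : (2 : ℤ) ^ x ≤ 2 * N) (h3 : N < 2 ^ y)
    (h4 : (2 : ℤ) ^ y ≤ 2 * N) : x = y := by
  rcases lt_trichotomy x y with h | h | h
  · exfalso
    have : (2 : ℤ) ^ (x + 1) ≤ 2 ^ y := pow_le_pow_right₀ (by norm_num) h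
    rw [pow_succ] at this
    omega
  · exact h
  · exfalso
    have : (2 : ℤ) ^ (y + 1) ≤ 2 ^ x := pow_le_pow_right₀ (by norm_num) h
    rw [pow_succ] at this
    omega

/-! ### Boundedness of the Hankel operator -/

lemma rpow_sum_of_unique {ι : Type*} (s : Finset ι) (f : ι → ℝ) {p : ℝ} (hp : 0 < p)
    (h : ∀ i ∈ s, ∀ j ∈ s, f i ≠ 0 → f j ≠ 0 → i = j) :
    (∑ i ∈ s, f i) ^ p = ∑ i ∈ s, f i ^ p := by
  by_cases h0 : ∃ i ∈ s, f i ≠ 0
  · obtain ⟨i, hi, hfi⟩ := h0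
    have h1 : ∀ j ∈ s, j ≠ i → f j = 0 := by
      intro j hj hji
      by_contra hcon
      exact hji (h j hj i hi hcon hfi)
    rw [Finset.sum_eq_single_of_mem i hi h1, Finset.sum_eq_single_of_mem i hi]
    intro j hj hji
    rw [h1 j hj hji, Real.zero_rpow hp.ne']
  · push Not at h0
    rw [Finset.sum_eq_zero h0, Finset.sum_eq_zero, Real.zero_rpow hp.ne']
    intro i hi
    rw [h0 i hi, Real.zero_rpow hp.ne']

/-- first part: rows with one entry -/
lemma part_one {p : ℝ} (hp : 1 < p) (s : Finset ℤ) (hs : ∀ j ∈ s, 0 ≤ j) (x : ℤ → ℝ)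
    (hx : ∀ j, 0 ≤ x j) (S : Finset ℤ) (hS : ∀ n ∈ S, n < 0) :
    ∑ n ∈ S, (∑ j ∈ s.filter (fun j => j < -n), x j * a (j - n)) ^ p ≤
      (∑' n, a n ^ p) * ∑ j ∈ s, x j ^ p := by
  have h1 : ∀ n ∈ S, (∑ j ∈ s.filter (fun j => j < -n), x j * a (j - n)) ^ p =
      ∑ j ∈ s.filter (fun j => j < -n), (x j * a (j - n)) ^ p := by
    intro n hn
    apply rpow_sum_of_unique _ _ (by linarith)
    intro i hi j hj hfi hfj
    rw [Finset.mem_filter] at hi hj
    obtain ⟨k, hk⟩ := exists_of_a_ne (right_ne_zero_of_mul hfi)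
    obtain ⟨l, hl⟩ := exists_of_a_ne (right_ne_zero_of_mul hfj)
    have hi0 := hs i hi.1
    have hj0 := hs j hj.1
    have hn0 := hS n hn
    have := pow_unique (x := k + 1) (y := l + 1) (N := -n) (by omega) (by omega) (by omega)
      (by omega)
    rw [← this] at hl
    omega
  rw [Finset.sum_congr rfl h1]
  calc ∑ n ∈ S, ∑ j ∈ s.filter (fun j => j < -n), (x j * a (j - n)) ^ p
      ≤ ∑ n ∈ S, ∑ j ∈ s, (x j * a (j - n)) ^ p := by
        apply Finset.sum_le_sum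
        intro n _
        apply Finset.sum_le_sum_of_subset_of_nonneg (Finset.filter_subset _ _)
        intro j _ _
        exact Real.rpow_nonneg (mul_nonneg (hx j) (a_nonneg _)) _
    _ = ∑ j ∈ s, x j ^ p * ∑ n ∈ S, a (j - n) ^ p := by
        rw [Finset.sum_comm]
        apply Finset.sum_congr rfl
        intro j _
        rw [Finset.mul_sum]
        apply Finset.sum_congr rfl
        intro n _
        rw [Real.mul_rpow (hx j) (a_nonneg _)]
    _ ≤ ∑ j ∈ s, x j ^ p * ∑' n, a n ^ p := by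
        apply Finset.sum_le_sum
        intro j _
        apply mul_le_mul_of_nonneg_left _ (Real.rpow_nonneg (hx j) _)
        exact sum_a_le hp S (fun n => j - n) (fun u v h => by simpa using h)
    _ = _ := by rw [← Finset.sum_mul, mul_comm]

/-- second part: columns with one entry -/
lemma part_two {p q : ℝ} (hpq : p.HolderConjugate q) (s : Finset ℤ) (x : ℤ → ℝ)
    (hx : ∀ j, 0 ≤ x j) (S : Finset ℤ) (hS : ∀ n ∈ S, n < 0) :
    ∑ n ∈ S, (∑ j ∈ s.filter (fun j => -n ≤ j), x j * a (j - n)) ^ p ≤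
      (∑' n, a n ^ q) ^ (p / q) * ∑ j ∈ s, x j ^ p := by
  classical
  have hp := hpq.pos
  have hq := hpq.symm.pos
  have hq1 := hpq.symm.lt
  set A := ∑' n, a n ^ q with hA
  have h1 : ∀ n ∈ S, (∑ j ∈ s.filter (fun j => -n ≤ j), x j * a (j - n)) ^ p ≤
      A ^ (p / q) * ∑ j ∈ s, if -n ≤ j ∧ a (j - n) ≠ 0 then x j ^ p else 0 := by
    intro n _
    have e1 : ∑ j ∈ s.filter (fun j => -n ≤ j), x j * a (j - n) =
        ∑ j ∈ s.filter (fun j => -n ≤ j ∧ a (j - n) ≠ 0), x j * a (j - n) := by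
      symm
      apply Finset.sum_subset
      · intro j hj
        rw [Finset.mem_filter] at *
        exact ⟨hj.1, hj.2.1⟩
      · intro j hj hj'
        rw [Finset.mem_filter] at *
        by_cases h : a (j - n) = 0
        · rw [h, mul_zero]
        · exact absurd ⟨hj.1, hj.2, h⟩ hj'
    rw [e1]
    have h2 := Real.inner_le_Lp_mul_Lq_of_nonneg
      (s.filter (fun j => -n ≤ j ∧ a (j - n) ≠ 0)) hpq
      (f := x) (g := fun j => a (j - n)) (fun j _ => hx j) (fun j _ => a_nonneg _)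
    have h3 : ∑ j ∈ s.filter (fun j => -n ≤ j ∧ a (j - n) ≠ 0), a (j - n) ^ q ≤ A :=
      sum_a_le hq1 _ (fun j => j - n) (fun u v h => by simpa using h)
    have hnn : 0 ≤ ∑ j ∈ s.filter (fun j => -n ≤ j ∧ a (j - n) ≠ 0), x j * a (j - n) :=
      Finset.sum_nonneg fun j _ => mul_nonneg (hx j) (a_nonneg _)
    have hx0 : 0 ≤ ∑ j ∈ s.filter (fun j => -n ≤ j ∧ a (j - n) ≠ 0), x j ^ p :=
      Finset.sum_nonneg fun j _ => Real.rpow_nonneg (hx j) _
    have ha0 : 0 ≤ ∑ j ∈ s.filter (fun j => -n ≤ j ∧ a (j - n) ≠ 0), a (j - n) ^ q :=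
      Finset.sum_nonneg fun j _ => Real.rpow_nonneg (a_nonneg _) _
    calc (∑ j ∈ s.filter (fun j => -n ≤ j ∧ a (j - n) ≠ 0), x j * a (j - n)) ^ p
        ≤ ((∑ j ∈ s.filter (fun j => -n ≤ j ∧ a (j - n) ≠ 0), x j ^ p) ^ (1 / p) *
          (∑ j ∈ s.filter (fun j => -n ≤ j ∧ a (j - n) ≠ 0), a (j - n) ^ q) ^ (1 / q)) ^ p :=
          Real.rpow_le_rpow hnn h2 hp.le
      _ = (∑ j ∈ s.filter (fun j => -n ≤ j ∧ a (j - n) ≠ 0), x j ^ p) *
          (∑ j ∈ s.filter (fun j => -n ≤ j ∧ a (j - n) ≠ 0), a (j - n) ^ q) ^ (p / q) := by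
          rw [Real.mul_rpow (Real.rpow_nonneg hx0 _) (Real.rpow_nonneg ha0 _), ← Real.rpow_mul hx0,
            ← Real.rpow_mul ha0, one_div, inv_mul_cancel₀ hp.ne', Real.rpow_one]
          congr 2
          field_simp
      _ ≤ (∑ j ∈ s.filter (fun j => -n ≤ j ∧ a (j - n) ≠ 0), x j ^ p) * A ^ (p / q) := by
          gcongr
      _ = _ := by rw [mul_comm, Finset.sum_filter]
  refine (Finset.sum_le_sum h1).trans ?_
  rw [← Finset.mul_sum, Finset.sum_comm]
  apply mul_le_mul_of_nonneg_left _ (Real.rpow_nonneg (tsum_nonneg fun n =>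
    Real.rpow_nonneg (a_nonneg n) _) _)
  apply Finset.sum_le_sum
  intro j _
  by_cases h0 : ∃ n ∈ S, -n ≤ j ∧ a (j - n) ≠ 0
  · obtain ⟨n, hn, hnj⟩ := h0
    rw [Finset.sum_eq_single_of_mem n hn]
    · rw [if_pos hnj]
    · intro m hm hmn
      rw [if_neg]
      intro hmj
      apply hmn
      obtain ⟨k, hk⟩ := exists_of_a_ne hnj.2
      obtain ⟨l, hl⟩ := exists_of_a_ne hmj.2
      have hn0 := hS n hn
      have hm0 := hS m hm
      have b1 := hnj.1
      have b2 := hmj.1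
      have := pow_unique' (x := k + 1) (y := l + 1) (N := j) (by omega) (by omega) (by omega)
        (by omega)
      rw [← this] at hl
      omega
  · push Not at h0
    rw [Finset.sum_eq_zero]
    · exact Real.rpow_nonneg (hx j) _
    · intro n hn
      rw [if_neg]
      rintro ⟨h, h'⟩
      exact h' (h0 n hn h)

lemma add_rpow_le {u v p : ℝ} (hu : 0 ≤ u) (hv : 0 ≤ v) (hp : 1 ≤ p) :
    (u + v) ^ p ≤ 2 ^ (p - 1) * (u ^ p + v ^ p) := by
  lift u to NNReal using hu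
  lift v to NNReal using hv
  have h := NNReal.rpow_add_le_mul_rpow_add_rpow u v hp
  exact_mod_cast h

/-- the bound constant -/
noncomputable def KK (p q : ℝ) : ℝ := 2 ^ (p - 1) * (∑' n, a n ^ p + (∑' n, a n ^ q) ^ (p / q))

lemma KK_nonneg (p q : ℝ) : 0 ≤ KK p q := by
  have h1 : 0 ≤ ∑' n, a n ^ p := tsum_nonneg fun n => Real.rpow_nonneg (a_nonneg n) _
  have h2 : 0 ≤ ∑' n, a n ^ q := tsum_nonneg fun n => Real.rpow_nonneg (a_nonneg n) _
  rw [KK]; positivity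

lemma hankel_bound {p q : ℝ} (hpq : p.HolderConjugate q) (s : Finset ℤ) (hs : ∀ j ∈ s, 0 ≤ j)
    (x : ℤ → ℝ) (hx : ∀ j, 0 ≤ x j) (S : Finset ℤ) (hS : ∀ n ∈ S, n < 0) :
    ∑ n ∈ S, (∑ j ∈ s, x j * a (j - n)) ^ p ≤ KK p q * ∑ j ∈ s, x j ^ p := by
  have hp := hpq.pos
  have h1 : ∀ n ∈ S, (∑ j ∈ s, x j * a (j - n)) ^ p ≤ 2 ^ (p - 1) *
      ((∑ j ∈ s.filter (fun j => j < -n), x j * a (j - n)) ^ p +
        (∑ j ∈ s.filter (fun j => -n ≤ j), x j * a (j - n)) ^ p) := by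
    intro n _
    have e1 : ∑ j ∈ s, x j * a (j - n) = ∑ j ∈ s.filter (fun j => j < -n), x j * a (j - n) +
        ∑ j ∈ s.filter (fun j => -n ≤ j), x j * a (j - n) := by
      rw [← Finset.sum_filter_add_sum_filter_not s (fun j => j < -n)]
      simp only [not_lt]
    rw [e1]
    have h2 : 0 ≤ ∑ j ∈ s.filter (fun j => j < -n), x j * a (j - n) :=
      Finset.sum_nonneg fun j _ => mul_nonneg (hx j) (a_nonneg _)
    have h3 : 0 ≤ ∑ j ∈ s.filter (fun j => -n ≤ j), x j * a (j - n) :=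
      Finset.sum_nonneg fun j _ => mul_nonneg (hx j) (a_nonneg _)
    exact add_rpow_le h2 h3 hpq.lt.le
  refine (Finset.sum_le_sum h1).trans ?_
  rw [← Finset.mul_sum, Finset.sum_add_distrib, KK, mul_assoc]
  apply mul_le_mul_of_nonneg_left _ (by positivity)
  rw [add_mul]
  exact add_le_add (part_one hpq.lt s hs x hx S hS) (part_two hpq s x hx S hS)

/-! ### Definitions used in the statement -/

/-- The trigonometric polynomial with coefficients `u`. -/
noncomputable def trigPoly (u : ℤ →₀ ℂ) (x : UnitAddCircle) : ℂ :=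
  u.sum fun k c => c * fourier k x

/-- The `ℓ^p(ℤ)` norm. -/
noncomputable def lpNorm (p : ℝ) (c : ℤ → ℂ) : ℝ := (∑' n, ‖c n‖ ^ p) ^ (1 / p)

/-- `c` lies in `ℓ^p(ℤ)` with norm at most `C`. -/
def LpNormLe (p : ℝ) (c : ℤ → ℂ) (C : ℝ) : Prop :=
  Summable (fun n => ‖c n‖ ^ p) ∧ lpNorm p c ≤ C

/-- `m` lies in `M_p`: `‖m u‖ ≤ C ‖u‖` in `ℓ^p` for every trigonometric polynomial `u`. -/
def IsMultiplier (p : ℝ) (m : UnitAddCircle → ℂ) : Prop :=
  Integrable m haarAddCircle ∧ ∃ C : ℝ, ∀ u : ℤ →₀ ℂ,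
    LpNormLe p (fourierCoeff fun x => m x * trigPoly u x) (C * lpNorm p u)

/-- `f ∈ P_+(M_p)`. -/
def InPPlus (p : ℝ) (f : UnitAddCircle → ℂ) : Prop :=
  ∃ m : UnitAddCircle → ℂ, IsMultiplier p m ∧
    ∀ n : ℤ, fourierCoeff f n = if 0 ≤ n then fourierCoeff m n else 0

/-- The version for arbitrary coefficient sequences (hence for arbitrary distributions): the
sequence `c` convolves `ℓ^p(ℤ)` boundedly to itself. -/
def IsMultiplierSeq (p : ℝ) (c : ℤ → ℂ) : Prop :=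
  ∃ C : ℝ, ∀ u : ℤ →₀ ℂ, LpNormLe p (fun n => u.sum fun k z => z * c (n - k)) (C * lpNorm p u)

/-- The coefficients of the Hankel operator `H_f g = (I - P_+) (conj f * g)`. -/
noncomputable def hankel (f : UnitAddCircle → ℂ) (g : ℤ →₀ ℂ) (n : ℤ) : ℂ :=
  if n < 0 then fourierCoeff (fun x => (starRingEnd ℂ) (f x) * trigPoly g x) n else 0

/-- `H_f` acts from `ℓ^pA` to `ℓ^p`. -/
def HankelActs (p : ℝ) (f : UnitAddCircle → ℂ) : Prop :=
  ∃ C : ℝ, ∀ g : ℤ →₀ ℂ, (∀ n < 0, g n = 0) → LpNormLe p (hankel f g) (C * lpNorm p g)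

/-! ### Fourier coefficients of products -/

lemma fourierCoeff_mul_trigPoly {h : UnitAddCircle → ℂ} (hh : Integrable h haarAddCircle)
    (u : ℤ →₀ ℂ) (n : ℤ) :
    fourierCoeff (fun x => h x * trigPoly u x) n = u.sum fun k z => z * fourierCoeff h (n - k) := by
  have hint : ∀ k : ℤ, Integrable (fun x : UnitAddCircle => fourier k x * h x) haarAddCircle := by
    intro k
    refine hh.bdd_mul (c := 1) ?_ ?_
    · exact (fourier k).continuous.aestronglyMeasurable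
    · filter_upwards with x
      rw [fourier_apply, Circle.norm_coe]
  simp only [fourierCoeff, smul_eq_mul, trigPoly, Finsupp.sum]
  have e1 : ∀ x : UnitAddCircle, fourier (-n) x * (h x * ∑ k ∈ u.support, u k * fourier k x) =
      ∑ k ∈ u.support, u k * (fourier (-(n - k)) x * h x) := by
    intro x
    rw [Finset.mul_sum, Finset.mul_sum]
    apply Finset.sum_congr rfl
    intro k _
    rw [show -(n - k) = -n + k by ring, fourier_add]
    ring
  simp only [e1]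
  rw [integral_finsetSum]
  · apply Finset.sum_congr rfl
    intro k _
    rw [integral_const_mul]
  · intro k _
    exact (hint _).const_mul _

lemma fourierCoeff_conj (h : UnitAddCircle → ℂ) (n : ℤ) :
    fourierCoeff (fun x => (starRingEnd ℂ) (h x)) n = (starRingEnd ℂ) (fourierCoeff h (-n)) := by
  simp only [fourierCoeff, smul_eq_mul]
  rw [← integral_conj]
  congr 1
  funext x
  rw [map_mul, neg_neg, fourier_neg]

/-! ### No multiplier -/

lemma bdd_of_seq {p q : ℝ} (hpq : p.HolderConjugate q) {c : ℤ → ℂ} {C : ℝ}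
    (h : ∀ u : ℤ →₀ ℂ, LpNormLe p (fun n => u.sum fun k z => z * c (n - k)) (C * lpNorm p u))
    (W : ℕ) : Bdd p q c W C := by
  classical
  intro X Y
  have hp := hpq.pos
  have hq := hpq.symm.pos
  obtain ⟨u, hu⟩ : ∃ u : ℤ →₀ ℂ, u = ∑ i ∈ range W, Finsupp.single (i : ℤ) (X i) := ⟨_, rfl⟩
  have hu1 : ∀ n : ℤ, (u.sum fun k z => z * c (n - k)) = ∑ i ∈ range W, X i * c (n - i) := by
    intro n
    rw [hu, ← Finsupp.sum_finsetSum_index (h_zero := by intro a; simp)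
      (h_add := by intro a b₁ b₂; ring)]
    apply Finset.sum_congr rfl
    intro i _
    rw [Finsupp.sum_single_index (by simp)]
  have hu2 : ∀ i ∈ range W, u (i : ℤ) = X i := by
    intro i hi
    rw [hu, Finsupp.finsetSum_apply, Finset.sum_eq_single_of_mem i hi]
    · simp
    · intro j _ hj
      rw [Finsupp.single_apply, if_neg (by exact_mod_cast hj)]
  have hu3 : ∀ n : ℤ, n ∉ (range W).image (fun i : ℕ => (i : ℤ)) → u n = 0 := by
    intro n hn
    rw [hu, Finsupp.finsetSum_apply, Finset.sum_eq_zero]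
    intro j hj
    rw [Finsupp.single_apply, if_neg]
    intro hjn
    exact hn (Finset.mem_image.2 ⟨j, hj, hjn⟩)
  have hinj : Set.InjOn (fun i : ℕ => (i : ℤ)) (range W) := Nat.cast_injective.injOn
  have hun : ∑' n, ‖u n‖ ^ p = ∑ i ∈ range W, ‖X i‖ ^ p := by
    rw [tsum_eq_sum (s := (range W).image (fun i : ℕ => (i : ℤ))), Finset.sum_image hinj]
    · apply Finset.sum_congr rfl
      intro i hi
      rw [hu2 i hi]
    · intro n hn
      rw [hu3 n hn, norm_zero, Real.zero_rpow hp.ne']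
  obtain ⟨h1, h2⟩ := h u
  simp only [lpNorm] at h2
  rw [hun] at h2
  simp only [hu1] at h1 h2
  have e1 : ∑ i ∈ range W, ∑ j ∈ range W, X i * Y j * c ((j : ℤ) - i) =
      ∑ j ∈ range W, Y j * ∑ i ∈ range W, X i * c ((j : ℤ) - i) := by
    rw [Finset.sum_comm]
    apply Finset.sum_congr rfl
    intro j _
    rw [Finset.mul_sum]
    apply Finset.sum_congr rfl
    intro i _
    ring
  rw [e1]
  calc ‖∑ j ∈ range W, Y j * ∑ i ∈ range W, X i * c ((j : ℤ) - i)‖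
      ≤ ∑ j ∈ range W, ‖∑ i ∈ range W, X i * c ((j : ℤ) - i)‖ * ‖Y j‖ := by
        refine (norm_sum_le _ _).trans (le_of_eq ?_)
        apply Finset.sum_congr rfl
        intro j _
        rw [norm_mul, mul_comm]
    _ ≤ (∑ j ∈ range W, ‖∑ i ∈ range W, X i * c ((j : ℤ) - i)‖ ^ p) ^ (1 / p) *
        (∑ j ∈ range W, ‖Y j‖ ^ q) ^ (1 / q) :=
        Real.inner_le_Lp_mul_Lq_of_nonneg _ hpq (fun _ _ => norm_nonneg _) (fun _ _ => norm_nonneg _)
    _ ≤ (C * (∑ i ∈ range W, ‖X i‖ ^ p) ^ (1 / p)) * (∑ j ∈ range W, ‖Y j‖ ^ q) ^ (1 / q) := by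
        apply mul_le_mul_of_nonneg_right _ (Real.rpow_nonneg (Finset.sum_nonneg fun _ _ =>
          Real.rpow_nonneg (norm_nonneg _) _) _)
        refine le_trans ?_ h2
        apply Real.rpow_le_rpow (Finset.sum_nonneg fun _ _ => Real.rpow_nonneg (norm_nonneg _) _)
          _ (by positivity)
        calc ∑ j ∈ range W, ‖∑ i ∈ range W, X i * c ((j : ℤ) - i)‖ ^ p
            = ∑ n ∈ (range W).image (fun i : ℕ => (i : ℤ)),
              ‖∑ i ∈ range W, X i * c (n - i)‖ ^ p := by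
                rw [Finset.sum_image hinj]
          _ ≤ _ := h1.sum_le_tsum _ (fun n _ => Real.rpow_nonneg (norm_nonneg _) _)
    _ = _ := by ring

lemma kap_ne {p q : ℝ} (hpq : p.HolderConjugate q) (hp2 : p ≠ 2) : kap p q ≠ 0 := by
  have hp := hpq.pos
  have hq := hpq.symm.pos
  have hone : 1 / p + 1 / q = 1 := by
    have := hpq.inv_add_inv_eq_one
    rw [one_div, one_div]; exact this
  have hne : (1 : ℝ) / p ≠ 1 / q := by
    intro h
    apply hp2
    rw [← h] at hone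
    field_simp at hone
    linarith
  have hlpos : 0 < lam p := by
    apply inv_pos.2
    positivity
  rw [kap]
  apply div_ne_zero _ (by norm_num)
  apply mul_ne_zero hlpos.ne'
  intro h
  apply hne
  have h1 : (2 : ℝ) ^ (1 / p) = 2 ^ (1 / q) := by linarith
  have h2 := congrArg Real.log h1
  rw [Real.log_rpow (by norm_num), Real.log_rpow (by norm_num)] at h2
  have hlog : Real.log 2 ≠ 0 := (Real.log_pos (by norm_num)).ne'
  exact mul_right_cancel₀ hlog h2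

lemma a_zero : a 0 = 0 := by
  apply a_eq_zero
  intro k hk
  have : (0 : ℤ) < 2 ^ (k + 1) := by positivity
  omega

lemma a_one : a 1 = 0 := by
  apply a_eq_zero
  intro k hk
  have : (0 : ℤ) < 2 ^ k := by positivity
  rw [pow_succ] at hk
  omega

lemma not_seq {p : ℝ} (hp1 : 1 < p) (hp2 : p ≠ 2) {c : ℤ → ℂ} (hc : ∀ n, 0 ≤ n → c n = a n) :
    ¬ IsMultiplierSeq p c := by
  rintro ⟨C, h⟩
  obtain ⟨q, hpq⟩ : ∃ q : ℝ, p.HolderConjugate q := ⟨_, Real.HolderConjugate.conjExponent hp1⟩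
  have hk := kap_ne hpq hp2
  have h1 : ∀ n : ℕ, ‖G (kap p q) n c‖ ≤ C := fun n => norm_G_le hpq n c C (bdd_of_seq hpq h _)
  have h2 : ∀ n : ℕ, G (kap p q) (n + 1) c = kap p q * ((∑ k ∈ range n, 1 / ((k : ℝ) + 1) : ℝ) : ℂ) := by
    intro n
    rw [G_eval]
    · rw [hc 0 le_rfl, a_zero, Finset.sum_range_succ']
      have e1 : ∀ k ∈ range n, c (2 ^ (k + 1)) = ((1 / ((k : ℝ) + 1) : ℝ) : ℂ) := by
        intro k _
        rw [hc _ (by positivity), a_pow]
      rw [Finset.sum_congr rfl e1, pow_zero, hc 1 (by norm_num), a_one]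
      push_cast
      ring
    · intro l hl hl2
      rw [hc l hl.le, a_eq_zero, Complex.ofReal_zero]
      intro k
      exact hl2 (k + 1)
  have h3 : ∀ n : ℕ, |kap p q| * ∑ k ∈ range n, 1 / ((k : ℝ) + 1) ≤ C := by
    intro n
    have := h1 (n + 1)
    rw [h2, norm_mul, Complex.norm_real, Complex.norm_real, Real.norm_eq_abs, Real.norm_eq_abs,
      abs_of_nonneg (a := ∑ k ∈ range n, 1 / ((k : ℝ) + 1))
        (Finset.sum_nonneg fun k _ => by positivity)] at this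
    exact this
  have hkpos : 0 < |kap p q| := abs_pos.2 hk
  obtain ⟨n, hn⟩ := (Real.tendsto_sum_range_one_div_nat_succ_atTop.eventually_gt_atTop
    (C / |kap p q|)).exists
  have h4 := h3 n
  rw [div_lt_iff₀ hkpos] at hn
  linarith [mul_comm |kap p q| (∑ k ∈ range n, 1 / ((k : ℝ) + 1))]

/-! ### The function -/

lemma memlp_a : Memℓp (fun n : ℤ => (a n : ℂ)) 2 := by
  apply memℓp_gen
  have := summable_a (s := 2) (by norm_num)
  refine this.congr ?_
  intro n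
  rw [Complex.norm_real, Real.norm_eq_abs, abs_of_nonneg (a_nonneg n)]
  norm_num

/-- The function `f`. -/
noncomputable def F : Lp ℂ 2 (haarAddCircle (T := 1)) :=
  (fourierBasis (T := 1)).repr.symm ⟨fun n : ℤ => (a n : ℂ), memlp_a⟩

lemma coeff_F (n : ℤ) : fourierCoeff (F : UnitAddCircle → ℂ) n = a n := by
  rw [← fourierBasis_repr, F, LinearIsometryEquiv.apply_symm_apply]

lemma F_integrable : Integrable (F : UnitAddCircle → ℂ) haarAddCircle :=
  (Lp.memLp F).integrable (by norm_num)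

lemma acts {p q : ℝ} (hpq : p.HolderConjugate q) : HankelActs p (F : UnitAddCircle → ℂ) := by
  have hp := hpq.pos
  refine ⟨KK p q ^ (1 / p), fun g hg => ?_⟩
  have hs : ∀ j ∈ g.support, 0 ≤ j := by
    intro j hj
    by_contra hcon
    exact (Finsupp.mem_support_iff.1 hj) (hg j (by omega))
  have hcoef : ∀ n : ℤ, ‖hankel (F : UnitAddCircle → ℂ) g n‖ ≤
      if n < 0 then ∑ j ∈ g.support, ‖g j‖ * a (j - n) else 0 := by
    intro n
    rw [hankel]
    split_ifs with hn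
    · rw [fourierCoeff_mul_trigPoly]
      · refine (norm_sum_le _ _).trans (le_of_eq ?_)
        apply Finset.sum_congr rfl
        intro j _
        rw [norm_mul, fourierCoeff_conj, RCLike.norm_conj, coeff_F, Complex.norm_real,
          Real.norm_eq_abs, abs_of_nonneg (a_nonneg _), neg_sub]
      · have := F_integrable.norm
        refine this.mono ?_ ?_
        · exact (Complex.continuous_conj.comp_aestronglyMeasurable
            F_integrable.aestronglyMeasurable)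
        · filter_upwards with x
          simp
    · simp
  have hgs : ∑' n, ‖g n‖ ^ p = ∑ j ∈ g.support, ‖g j‖ ^ p := by
    apply tsum_eq_sum
    intro n hn
    rw [Finsupp.notMem_support_iff.1 hn, norm_zero, Real.zero_rpow hp.ne']
  have hfin : ∀ S : Finset ℤ, ∑ n ∈ S, ‖hankel (F : UnitAddCircle → ℂ) g n‖ ^ p ≤
      KK p q * ∑' n, ‖g n‖ ^ p := by
    intro S
    classical
    rw [hgs]
    refine le_trans ?_ (hankel_bound hpq g.support hs (fun j => ‖g j‖) (fun j => norm_nonneg _)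
      (S.filter (fun n => n < 0)) (fun n hn => (Finset.mem_filter.1 hn).2))
    rw [Finset.sum_filter]
    apply Finset.sum_le_sum
    intro n _
    refine (Real.rpow_le_rpow (norm_nonneg _) (hcoef n) hp.le).trans (le_of_eq ?_)
    split_ifs with hn
    · rfl
    · exact Real.zero_rpow hp.ne'
  have hsum : Summable (fun n => ‖hankel (F : UnitAddCircle → ℂ) g n‖ ^ p) :=
    summable_of_sum_le (fun n => Real.rpow_nonneg (norm_nonneg _) _) hfin
  refine ⟨hsum, ?_⟩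
  have htsum : ∑' n, ‖hankel (F : UnitAddCircle → ℂ) g n‖ ^ p ≤ KK p q * ∑' n, ‖g n‖ ^ p :=
    hsum.tsum_le_of_sum_le hfin
  rw [lpNorm, lpNorm, ← Real.mul_rpow (KK_nonneg p q) (tsum_nonneg fun n =>
    Real.rpow_nonneg (norm_nonneg _) _)]
  exact Real.rpow_le_rpow (tsum_nonneg fun n => Real.rpow_nonneg (norm_nonneg _) _) htsum
    (by positivity)

/-- **Main theorem.**  -/
theorem result : ∃ f : UnitAddCircle → ℂ,
    MemLp f 2 haarAddCircle ∧ (∀ n < 0, fourierCoeff f n = 0) ∧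
    ∀ p : ℝ, 1 < p → p ≠ 2 →
      HankelActs p f ∧ ¬ InPPlus p f ∧
      ¬ ∃ c : ℤ → ℂ, IsMultiplierSeq p c ∧ ∀ n, 0 ≤ n → c n = fourierCoeff f n := by
  refine ⟨F, Lp.memLp F, ?_, ?_⟩
  · intro n hn
    rw [coeff_F, a_eq_zero, Complex.ofReal_zero]
    intro k hk
    have : (0 : ℤ) < 2 ^ (k + 1) := by positivity
    omega
  · intro p hp1 hp2
    obtain ⟨q, hpq⟩ : ∃ q : ℝ, p.HolderConjugate q := ⟨_, Real.HolderConjugate.conjExponent hp1⟩
    have key : ¬ ∃ c : ℤ → ℂ, IsMultiplierSeq p c ∧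
        ∀ n, 0 ≤ n → c n = fourierCoeff (F : UnitAddCircle → ℂ) n := by
      rintro ⟨c, hc, hcn⟩
      exact not_seq hp1 hp2 (fun n hn => by rw [hcn n hn, coeff_F]) hc
    refine ⟨acts hpq, ?_, key⟩
    rintro ⟨m, ⟨hm, C, hC⟩, hmn⟩
    apply key
    refine ⟨fourierCoeff m, ⟨C, fun u => ?_⟩, ?_⟩
    · have := hC u
      have e : (fourierCoeff fun x => m x * trigPoly u x) =
          fun n => u.sum fun k z => z * fourierCoeff m (n - k) := by
        funext n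
        exact fourierCoeff_mul_trigPoly hm u n
      rw [e] at this
      exact this
    · intro n hn
      rw [hmn n, if_pos hn]

end Pool.Agent.Results.MP_03b314_an.NehariFails
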